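import Mathlib

/-!
# Parameter counts: more polynomials than variables are algebraically dependent
-/

set_option autoImplicit false

namespace Pool.Agent.Y238.UW

open MvPolynomial

theorem exists_rel {τ : Type} [Fintype τ] {n : ℕ} (h : Fintype.card τ < n)
    (g : Fin n → MvPolynomial τ ℂ) :
    ∃ Q : MvPolynomial (Fin n) ℂ, Q ≠ 0 ∧ aeval g Q = 0 := by
  by_contra hcon
  push Not at hcon
  have h1 : AlgebraicIndependent ℂ g := by
    rw [algebraicIndependent_iff]
    intro p hp
    by_contra h0
    exact hcon p h0 hp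
  have h2 := h1.cardinalMk_le_trdeg
  rw [MvPolynomial.trdeg_of_isDomain, Cardinal.lift_id, Cardinal.mk_fin, Cardinal.mk_fintype,
    Nat.cast_le] at h2
  omega

/-- A polynomial which vanishes on the image of a polynomial map with few parameters. -/
theorem exists_vanishing {τ : Type} [Fintype τ] {n : ℕ} (h : Fintype.card τ < n)
    (g : Fin n → MvPolynomial τ ℂ) :
    ∃ Q : MvPolynomial (Fin n) ℂ, Q ≠ 0 ∧ ∀ t : τ → ℂ, eval (fun s => eval t (g s)) Q = 0 := by
  obtain ⟨Q, hQ, h1⟩ := exists_rel h g
  refine ⟨Q, hQ, fun t => ?_⟩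
  have h2 := congrArg (eval t) h1
  rw [map_zero] at h2
  rw [← h2]
  rw [aeval_def, ← MvPolynomial.coe_eval₂Hom, ← RingHom.comp_apply]
  have h3 : (eval t).comp (eval₂Hom (algebraMap ℂ (MvPolynomial τ ℂ)) g) =
      eval fun s => eval t (g s) := by
    apply MvPolynomial.ringHom_ext
    · intro r
      simp
    · intro i
      simp
  rw [h3]

end Pool.Agent.Y238.UW
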