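import Mathlib
import Pool.Agent.Y238.UW.Count

/-!
# Families of polynomials with few parameters
-/

set_option autoImplicit false

namespace Pool.Agent.Y238.UW

open Polynomial

/-- The exponents of the quartic monomials in four variables. -/
abbrev M4 := {m : Fin 4 → ℕ // m ∈ Finset.Nat.antidiagonalTuple 4 4}

theorem card_M4 : Fintype.card M4 = 35 := by
  rw [Fintype.card_coe]
  decide +kernel

/-- The value of a quartic form with coefficients `P` at `y`. -/
noncomputable def Fam {R : Type} [CommRing R] (y : Fin 4 → R[X]) (P : M4 → R) : R[X] :=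
  ∑ m : M4, C (P m) * ∏ i, y i ^ m.1 i

theorem map_Fam {R S : Type} [CommRing R] [CommRing S] (f : R →+* S) (y : Fin 4 → R[X])
    (P : M4 → R) : (Fam y P).map f = Fam (fun i => (y i).map f) (fun m => f (P m)) := by
  unfold Fam
  simp [Polynomial.map_sum, Polynomial.map_prod]

/-- The polynomial with given coefficients. -/
noncomputable def gp {R : Type} [CommRing R] {n : ℕ} (v : Fin n → R) : R[X] :=
  ∑ j : Fin n, C (v j) * X ^ (j : ℕ)

theorem map_gp {R S : Type} [CommRing R] [CommRing S] (f : R →+* S) {n : ℕ} (v : Fin n → R) :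
    (gp v).map f = gp fun j => f (v j) := by
  unfold gp
  simp [Polynomial.map_sum]

theorem gp_coeff {R : Type} [CommRing R] {n : ℕ} (p : R[X]) (h : p.natDegree < n) :
    gp (fun j : Fin n => p.coeff j) = p := by
  unfold gp
  conv_rhs => rw [p.as_sum_range' n h]
  rw [← Fin.sum_univ_eq_sum_range (fun i => monomial i (p.coeff i)) n]
  simp only [C_mul_X_pow_eq_monomial]

/-- Every family of polynomials with fewer parameters than coefficients satisfies a relation. -/
theorem rel_of_family {τ : Type} [Fintype τ] {n : ℕ} (h : Fintype.card τ < n)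
    (F : (MvPolynomial τ ℂ)[X]) :
    ∃ Q : MvPolynomial (Fin n) ℂ, Q ≠ 0 ∧ ∀ t : τ → ℂ,
      MvPolynomial.eval (fun s : Fin n => (F.map (MvPolynomial.eval t)).coeff s) Q = 0 := by
  obtain ⟨Q, hQ, h1⟩ := exists_vanishing h fun s : Fin n => F.coeff s
  refine ⟨Q, hQ, fun t => ?_⟩
  simp only [Polynomial.coeff_map]
  exact h1 t

/-! ### Case (a): three forms -/

theorem caseA : ∃ Q : MvPolynomial (Fin 65) ℂ, Q ≠ 0 ∧ ∀ (K : Fin 3 → ℂ[X]) (P : M4 → ℂ),
    (∀ i, (K i).natDegree ≤ 8) →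
    MvPolynomial.eval (fun s : Fin 65 =>
      (Fam (Fin.snoc (fun i => K i ^ 2) 0 : Fin 4 → ℂ[X]) P).coeff s) Q = 0 := by
  have hc : Fintype.card (M4 ⊕ (Fin 3 × Fin 9)) < 65 := by
    rw [Fintype.card_sum, card_M4]
    simp
  obtain ⟨Q, hQ, h1⟩ := rel_of_family hc
    (Fam (Fin.snoc (fun i : Fin 3 => gp (fun j : Fin 9 => (MvPolynomial.X (Sum.inr (i, j)) :
      MvPolynomial (M4 ⊕ (Fin 3 × Fin 9)) ℂ)) ^ 2) 0 : Fin 4 → (MvPolynomial _ ℂ)[X])
      (fun m => MvPolynomial.X (Sum.inl m)))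
  refine ⟨Q, hQ, fun K P hK => ?_⟩
  have h2 := h1 (Sum.elim P fun x => (K x.1).coeff x.2)
  rw [map_Fam] at h2
  simp only [MvPolynomial.eval_X, Sum.elim_inl] at h2
  have h3 : (fun i : Fin 4 => Polynomial.map (MvPolynomial.eval
      (Sum.elim P fun x : Fin 3 × Fin 9 => (K x.1).coeff x.2))
      ((Fin.snoc (fun i : Fin 3 => gp (fun j : Fin 9 => (MvPolynomial.X (Sum.inr (i, j)) :
      MvPolynomial (M4 ⊕ (Fin 3 × Fin 9)) ℂ)) ^ 2) 0 : Fin 4 → (MvPolynomial _ ℂ)[X]) i)) =
      (Fin.snoc (fun i => K i ^ 2) 0 : Fin 4 → ℂ[X]) := by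
    funext i
    refine Fin.lastCases ?_ (fun i => ?_) i
    · simp only [Fin.snoc_last, Polynomial.map_zero]
    · simp only [Fin.snoc_castSucc, Polynomial.map_pow, map_gp, MvPolynomial.eval_X, Sum.elim_inr]
      rw [gp_coeff (K i) (Nat.lt_succ_of_le (hK i))]
  rw [h3] at h2
  exact h2

/-! ### Case (c): at most four linear forms on the next layer -/

noncomputable def FamC {R : Type} [CommRing R] (K : Fin 4 → R[X]) (w : Fin 4 → Fin 4 → R)
    (S : Sym2 (Fin 4) → R) : R[X] :=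
  ∑ c : Fin 4, ∑ c' : Fin 4, C (S s(c, c')) * ((∑ d, C (w c d) * K d ^ 2) ^ 2 *
    (∑ d, C (w c' d) * K d ^ 2) ^ 2)

theorem map_FamC {R S : Type} [CommRing R] [CommRing S] (f : R →+* S) (K : Fin 4 → R[X])
    (w : Fin 4 → Fin 4 → R) (T : Sym2 (Fin 4) → R) :
    (FamC K w T).map f = FamC (fun i => (K i).map f) (fun c d => f (w c d)) (fun x => f (T x)) := by
  unfold FamC
  simp [Polynomial.map_sum]

theorem caseC : ∃ Q : MvPolynomial (Fin 65) ℂ, Q ≠ 0 ∧ ∀ (K : Fin 4 → ℂ[X])
    (w : Fin 4 → Fin 4 → ℂ) (S : Sym2 (Fin 4) → ℂ), (∀ i, (K i).natDegree ≤ 8) →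
    MvPolynomial.eval (fun s : Fin 65 => (FamC K w S).coeff s) Q = 0 := by
  have hc : Fintype.card (Sym2 (Fin 4) ⊕ ((Fin 4 × Fin 4) ⊕ (Fin 4 × Fin 9))) < 65 := by
    rw [Fintype.card_sum, Sym2.card]
    simp
    decide
  obtain ⟨Q, hQ, h1⟩ := rel_of_family hc
    (FamC (fun i : Fin 4 => gp (fun j : Fin 9 => (MvPolynomial.X (Sum.inr (Sum.inr (i, j))) :
      MvPolynomial (Sym2 (Fin 4) ⊕ ((Fin 4 × Fin 4) ⊕ (Fin 4 × Fin 9))) ℂ)))
      (fun c d => MvPolynomial.X (Sum.inr (Sum.inl (c, d))))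
      (fun x => MvPolynomial.X (Sum.inl x)))
  refine ⟨Q, hQ, fun K w S hK => ?_⟩
  have h2 := h1 (Sum.elim S (Sum.elim (fun x => w x.1 x.2) fun x => (K x.1).coeff x.2))
  rw [map_FamC] at h2
  simp only [MvPolynomial.eval_X, Sum.elim_inl, Sum.elim_inr, map_gp] at h2
  have h3 : (fun i : Fin 4 => gp (fun j : Fin 9 => (K i).coeff j)) = K := by
    funext i
    exact gp_coeff (K i) (Nat.lt_succ_of_le (hK i))
  rw [h3] at h2
  exact h2

/-! ### Case (b): at most four forms on the previous layer -/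

/-- The forms `K_i = ∑_j w_ij G_j ^ 2`. -/
noncomputable def KB {R : Type} [CommRing R] (w : Fin 4 → Fin 4 → R) (G : Fin 4 → R[X])
    (i : Fin 4) : R[X] :=
  ∑ j, C (w i j) * G j ^ 2

noncomputable def FamB {R : Type} [CommRing R] (w : Fin 4 → Fin 4 → R) (G : Fin 4 → R[X])
    (P : M4 → R) : R[X] :=
  Fam (fun i => KB w G i ^ 2) P

theorem map_FamB {R S : Type} [CommRing R] [CommRing S] (f : R →+* S) (w : Fin 4 → Fin 4 → R)
    (G : Fin 4 → R[X]) (P : M4 → R) :
    (FamB w G P).map f = FamB (fun i j => f (w i j)) (fun j => (G j).map f) (fun m => f (P m)) := by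
  unfold FamB KB
  rw [map_Fam]
  simp [Polynomial.map_sum]

/-- Normalisation of the scaling parameters. -/
theorem FamB_norm (w : Fin 4 → Fin 4 → ℂ) (G : Fin 4 → ℂ[X]) (P : M4 → ℂ)
    (hw : ∀ i, w i i ≠ 0) (hG : ∀ j, (G j).coeff 4 ≠ 0) :
    ∃ (w' : Fin 4 → Fin 4 → ℂ) (G' : Fin 4 → ℂ[X]) (P' : M4 → ℂ),
      (∀ i, w' i i = 1) ∧ (∀ j, (G' j).coeff 4 = 1) ∧
      (∀ j, (G' j).natDegree ≤ (G j).natDegree) ∧ FamB w G P = FamB w' G' P' := by
  set a : Fin 4 → ℂ := fun j => (G j).coeff 4 with ha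
  set κ : Fin 4 → ℂ := fun i => w i i * a i ^ 2 with hκ
  have hκ0 : ∀ i, κ i ≠ 0 := fun i => mul_ne_zero (hw i) (pow_ne_zero 2 (hG i))
  refine ⟨fun i j => w i j * a j ^ 2 / κ i, fun j => C (a j)⁻¹ * G j,
    fun m => P m * ∏ i, (κ i ^ 2) ^ m.1 i, ?_, ?_, ?_, ?_⟩
  · intro i
    exact div_self (hκ0 i)
  · intro j
    rw [coeff_C_mul]
    exact inv_mul_cancel₀ (hG j)
  · intro j
    exact natDegree_C_mul_le _ _
  · have h1 : ∀ i, KB w G i =
        C (κ i) * KB (fun i j => w i j * a j ^ 2 / κ i) (fun j => C (a j)⁻¹ * G j) i := by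
      intro i
      unfold KB
      rw [Finset.mul_sum]
      refine Finset.sum_congr rfl fun j _ => ?_
      have h2 : w i j = κ i * (w i j * a j ^ 2 / κ i) * ((a j)⁻¹) ^ 2 := by
        have := hG j
        have h3 : a j ≠ 0 := this
        field_simp [hκ0 i]
      calc C (w i j) * G j ^ 2 = C (κ i * (w i j * a j ^ 2 / κ i) * ((a j)⁻¹) ^ 2) * G j ^ 2 := by
            rw [← h2]
        _ = _ := by
            simp only [C_mul, C_pow]
            ring
    unfold FamB Fam
    refine Finset.sum_congr rfl fun m _ => ?_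
    simp only [h1, mul_pow, Finset.prod_mul_distrib, C_mul, map_prod, C_pow]
    ring

abbrev TauB := M4 ⊕ ({x : Fin 4 × Fin 4 // x.1 ≠ x.2} ⊕ (Fin 4 × Fin 4))

theorem caseB_norm : ∃ Q : MvPolynomial (Fin 65) ℂ, Q ≠ 0 ∧ ∀ (w : Fin 4 → Fin 4 → ℂ)
    (G : Fin 4 → ℂ[X]) (P : M4 → ℂ), (∀ j, (G j).natDegree ≤ 4) → (∀ i, w i i = 1) →
    (∀ j, (G j).coeff 4 = 1) →
    MvPolynomial.eval (fun s : Fin 65 => (FamB w G P).coeff s) Q = 0 := by
  have hc : Fintype.card TauB < 65 := by
    rw [Fintype.card_sum, card_M4, Fintype.card_sum]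
    have : Fintype.card {x : Fin 4 × Fin 4 // x.1 ≠ x.2} = 12 := by decide
    rw [this]
    simp
  obtain ⟨Q, hQ, h1⟩ := rel_of_family hc
    (FamB (fun i j => if h : i = j then 1 else (MvPolynomial.X (Sum.inr (Sum.inl ⟨(i, j), h⟩)) :
        MvPolynomial TauB ℂ))
      (fun j => X ^ 4 + gp fun l : Fin 4 => (MvPolynomial.X (Sum.inr (Sum.inr (j, l))) :
        MvPolynomial TauB ℂ))
      (fun m => MvPolynomial.X (Sum.inl m)))
  refine ⟨Q, hQ, fun w G P hG hw h4 => ?_⟩
  have h2 := h1 (Sum.elim P (Sum.elim (fun x => w x.1.1 x.1.2) fun x => (G x.1).coeff x.2))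
  rw [map_FamB] at h2
  simp only [MvPolynomial.eval_X, Sum.elim_inl, Polynomial.map_add, Polynomial.map_pow,
    Polynomial.map_X, map_gp, Sum.elim_inr] at h2
  have h3 : (fun j : Fin 4 => X ^ 4 + gp (fun l : Fin 4 => (G j).coeff l)) = G := by
    funext j
    have h5 := gp_coeff (n := 5) (G j) (Nat.lt_succ_of_le (hG j))
    conv_rhs => rw [← h5]
    unfold gp
    conv_rhs => rw [Fin.sum_univ_castSucc]
    simp [h4 j]
    ring
  have h5 : (fun i j => MvPolynomial.eval
      (Sum.elim P (Sum.elim (fun x : {x : Fin 4 × Fin 4 // x.1 ≠ x.2} => w x.1.1 x.1.2)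
        fun x : Fin 4 × Fin 4 => (G x.1).coeff x.2))
      (if h : i = j then 1 else (MvPolynomial.X (Sum.inr (Sum.inl ⟨(i, j), h⟩)) :
        MvPolynomial TauB ℂ))) = w := by
    funext i j
    by_cases h : i = j
    · subst h
      simp [hw]
    · simp [h]
  rw [h3, h5] at h2
  exact h2

theorem caseB : ∃ Q : MvPolynomial (Fin 65) ℂ, Q ≠ 0 ∧ ∀ (w : Fin 4 → Fin 4 → ℂ)
    (G : Fin 4 → ℂ[X]) (P : M4 → ℂ), (∀ j, (G j).natDegree ≤ 4) →
    MvPolynomial.eval (fun s : Fin 65 => (FamB w G P).coeff s) Q = 0 := by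
  obtain ⟨Q, hQ, h1⟩ := caseB_norm
  refine ⟨Q, hQ, fun w G P hG => ?_⟩
  -- generic case
  have gen : ∀ (w : Fin 4 → Fin 4 → ℂ) (G : Fin 4 → ℂ[X]), (∀ j, (G j).natDegree ≤ 4) →
      (∀ i, w i i ≠ 0) → (∀ j, (G j).coeff 4 ≠ 0) →
      MvPolynomial.eval (fun s : Fin 65 => (FamB w G P).coeff s) Q = 0 := by
    intro w G hG hw h4
    obtain ⟨w', G', P', hw', hG', hd, he⟩ := FamB_norm w G P hw h4
    rw [he]
    exact h1 w' G' P' (fun j => (hd j).trans (hG j)) hw' hG'
  -- a one-parameter family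
  let F : (ℂ[X])[X] := FamB (fun i j => if i = j then C (w i i) + X else C (w i j))
    (fun j => (G j).map C + C X * X ^ 4) (fun m => C (P m))
  let f : ℂ[X] := MvPolynomial.aeval (fun s : Fin 65 => F.coeff s) Q
  have hf : ∀ z : ℂ, f.eval z = MvPolynomial.eval (fun s : Fin 65 =>
      (FamB (fun i j => if i = j then w i i + z else w i j) (fun j => G j + C z * X ^ 4)
        P).coeff s) Q := by
    intro z
    have h2 : F.map (evalRingHom z) = FamB (fun i j => if i = j then w i i + z else w i j)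
        (fun j => G j + C z * X ^ 4) P := by
      rw [map_FamB]
      congr 1
      · funext i j
        by_cases h : i = j
        · simp [h]
        · simp [h]
      · funext j
        have hid : (evalRingHom z).comp C = RingHom.id ℂ := by
          ext r
          simp
        simp [Polynomial.map_map, hid]
      · funext m
        simp
    rw [← h2]
    simp only [coeff_map]
    change (evalRingHom z) (MvPolynomial.aeval (fun s : Fin 65 => F.coeff s) Q) = _
    rw [MvPolynomial.aeval_def, ← MvPolynomial.coe_eval₂Hom, ← RingHom.comp_apply]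
    have h3 : (evalRingHom z).comp (MvPolynomial.eval₂Hom (algebraMap ℂ ℂ[X])
        fun s : Fin 65 => F.coeff s) = MvPolynomial.eval fun s : Fin 65 =>
          (evalRingHom z) (F.coeff s) := by
      apply MvPolynomial.ringHom_ext
      · intro r
        simp
      · intro i
        simp
    rw [h3]
  have hzero : ∀ z : ℂ, (∀ i, w i i + z ≠ 0) → (∀ j, (G j).coeff 4 + z ≠ 0) → f.eval z = 0 := by
    intro z hz1 hz2
    rw [hf]
    refine gen _ _ ?_ ?_ ?_
    · intro j
      refine natDegree_add_le_of_degree_le (hG j) ?_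
      refine (natDegree_C_mul_le _ _).trans ?_
      exact natDegree_X_pow_le 4
    · intro i
      simpa using hz1 i
    · intro j
      simpa using hz2 j
  have hf0 : f = 0 := by
    apply eq_zero_of_infinite_isRoot
    have hfin : (Set.range (fun i => - w i i) ∪ Set.range (fun j => - (G j).coeff 4)).Finite :=
      (Set.finite_range _).union (Set.finite_range _)
    refine hfin.infinite_compl.mono ?_
    intro z hz
    rw [Set.mem_compl_iff, Set.mem_union, not_or] at hz
    refine hzero z (fun i hi => hz.1 ⟨i, ?_⟩) (fun j hj => hz.2 ⟨j, ?_⟩)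
    · simp only
      linear_combination -hi
    · simp only
      linear_combination -hj
  have h2 := hf 0
  rw [hf0, eval_zero] at h2
  rw [h2]
  have h3 : (fun i j => if i = j then w i i + 0 else w i j) = w := by
    funext i j
    by_cases h : i = j
    · simp [h]
    · simp [h]
  have h4 : (fun j => G j + C 0 * X ^ 4) = G := by
    funext j
    simp
  rw [h3, h4]

end Pool.Agent.Y238.UW
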