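import Mathlib

/-!
# The Jacobian criterion for algebraic independence over a field of characteristic zero
(one direction; adapted from `Pool.Agent.H626R2.PJac`, which treats the field `ℚ`)
-/

set_option autoImplicit false

namespace Pool.Agent.Y238.UW

open MvPolynomial

variable {k : Type} [Field k] [CharZero k]

/-- The chain rule. -/
theorem deriv_aeval {r : ℕ} {B : Type} [CommRing B] [Algebra k B] (D : Derivation k B B)
    (T : Fin r → B) (P : MvPolynomial (Fin r) k) :
    D (aeval T P) = ∑ a, aeval T (pderiv a P) * D (T a) := by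
  induction P using MvPolynomial.induction_on with
  | C a => simp
  | add p q hp hq =>
    rw [map_add, map_add, hp, hq, ← Finset.sum_add_distrib]
    refine Finset.sum_congr rfl fun a _ => ?_
    rw [map_add, map_add, add_mul]
  | mul_X p j hp =>
    rw [map_mul, Derivation.leibniz, hp, aeval_X, smul_eq_mul, smul_eq_mul]
    have h1 : ∀ a, aeval T (pderiv a (p * X j)) * D (T a)
        = T j * (aeval T (pderiv a p) * D (T a)) + aeval T p * (if a = j then D (T a) else 0) := by
      intro a
      rw [pderiv_mul, map_add, map_mul, map_mul, aeval_X]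
      by_cases h : a = j
      · subst h
        rw [pderiv_X_self, map_one, if_pos rfl]
        ring
      · rw [pderiv_X_of_ne (Ne.symm h), map_zero, if_neg h]
        ring
    rw [Finset.sum_congr rfl fun a _ => h1 a, Finset.sum_add_distrib, ← Finset.mul_sum,
      ← Finset.mul_sum, Finset.sum_ite_eq' Finset.univ j, if_pos (Finset.mem_univ _)]
    ring

theorem exists_pderiv_ne {r : ℕ} {P : MvPolynomial (Fin r) k} (h : ∀ c, P ≠ C c) :
    ∃ a, pderiv a P ≠ 0 := by
  by_contra hcon
  push Not at hcon
  apply h (coeff 0 P)
  ext m
  rw [coeff_C]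
  by_cases hm : 0 = m
  · rw [if_pos hm, ← hm]
  · rw [if_neg hm]
    obtain ⟨a, ha⟩ : ∃ a, m a ≠ 0 := by
      by_contra h0
      push Not at h0
      exact hm (Finsupp.ext fun a => (h0 a).symm)
    have h1 := congrArg (coeff (m - Finsupp.single a 1)) (hcon a)
    rw [coeff_pderiv, coeff_zero, tsub_add_cancel_of_le (by
      rw [Finsupp.single_le_iff]; omega)] at h1
    rcases mul_eq_zero.1 h1 with h2 | h2
    · exact h2
    · exfalso
      have h3 : (((m - Finsupp.single a 1 : Fin r →₀ ℕ) a : ℕ) : k) + 1 ≠ 0 :=
        Nat.cast_add_one_ne_zero _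
      exact h3 h2

theorem totalDegree_pderiv_lt {r : ℕ} {P : MvPolynomial (Fin r) k} {a : Fin r}
    (h : pderiv a P ≠ 0) : (pderiv a P).totalDegree < P.totalDegree := by
  rw [Nat.lt_iff_add_one_le]
  obtain ⟨m, hm, hmd⟩ : ∃ m ∈ (pderiv a P).support, (pderiv a P).totalDegree = m.degree := by
    have h1 : (pderiv a P).support.Nonempty := by
      rw [Finset.nonempty_iff_ne_empty]
      intro h0
      exact h (support_eq_empty.1 h0)
    obtain ⟨m, hm, hmax⟩ := Finset.exists_mem_eq_sup (pderiv a P).support h1
      (fun s => s.sum fun _ e => e)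
    refine ⟨m, hm, ?_⟩
    rw [totalDegree]
    rw [hmax]
    rfl
  rw [hmd]
  rw [mem_support_iff, coeff_pderiv] at hm
  have h2 : coeff (m + Finsupp.single a 1) P ≠ 0 := left_ne_zero_of_mul hm
  have h3 := le_totalDegree (mem_support_iff.2 h2)
  refine le_trans ?_ h3
  change _ ≤ (m + Finsupp.single a 1).degree
  rw [map_add, Finsupp.degree_single]

/-- A nonvanishing Jacobian determinant implies algebraic independence. -/
theorem algInd_of_det {r : ℕ} {B : Type} [CommRing B] [IsDomain B] [Algebra k B]
    (D : Fin r → Derivation k B B) (T : Fin r → B)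
    (h : (Matrix.of fun a b => D b (T a)).det ≠ 0) : AlgebraicIndependent k T := by
  rw [algebraicIndependent_iff]
  have main : ∀ (n : ℕ) (P : MvPolynomial (Fin r) k), P.totalDegree ≤ n → aeval T P = 0 →
      P = 0 := by
    intro n
    induction n with
    | zero =>
      intro P hP h0
      rw [Nat.le_zero, totalDegree_eq_zero_iff_eq_C] at hP
      rw [hP] at h0 ⊢
      rw [algHom_C] at h0
      have := (algebraMap k B).injective
      rw [← map_zero (algebraMap k B)] at h0
      rw [this h0, C_0]
    | succ n ih =>
      intro P hP h0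
      have h1 : ∀ a, aeval T (pderiv a P) = 0 := by
        have h2 : (fun a => aeval T (pderiv a P)) = 0 := by
          apply Matrix.eq_zero_of_vecMul_eq_zero h
          funext b
          have h3 := deriv_aeval (D b) T P
          rw [h0, map_zero] at h3
          simp only [Matrix.vecMul, dotProduct, Matrix.of_apply, Pi.zero_apply]
          exact h3.symm
        exact fun a => congrFun h2 a
      by_contra hP0
      by_cases hc : ∀ c, P ≠ C c
      · obtain ⟨a, ha⟩ := exists_pderiv_ne hc
        have h4 := totalDegree_pderiv_lt ha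
        exact ha (ih _ (by omega) (h1 a))
      · push Not at hc
        obtain ⟨c, rfl⟩ := hc
        rw [algHom_C] at h0
        have := (algebraMap k B).injective
        rw [← map_zero (algebraMap k B)] at h0
        rw [this h0, C_0] at hP0
        exact hP0 rfl
  exact fun P => main _ P le_rfl

end Pool.Agent.Y238.UW
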