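import Mathlib
import Pool.Agent.Y238.UW.Jac
import Pool.Agent.Y238.UW.Data

/-!
# Algebraic independence of the values of the generic composition
-/

set_option autoImplicit false

namespace Pool.Agent.Y238.UW

open MvPolynomial

/-- The parameters: `35` coefficients of a quartic form, `4 * 9` coefficients of four
polynomials of degree at most eight. -/
abbrev Par := Fin 35 ⊕ (Fin 4 × Fin 9)

abbrev BB := MvPolynomial Par ℂ

/-- The value of the generic polynomial `K_i` at `s`. -/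
noncomputable def Kb (i : Fin 4) (s : ℕ) : BB :=
  ∑ j : Fin 9, C ((s : ℂ) ^ (j : ℕ)) * X (Sum.inr (i, j))

/-- The exponents of the `m`-th monomial. -/
def ex (m : Fin 35) : ℕ × ℕ × ℕ × ℕ := mons.getD (m : ℕ) (0, 0, 0, 0)

noncomputable def monoB (m : ℕ × ℕ × ℕ × ℕ) (s : ℕ) : BB :=
  (Kb 0 s ^ 2) ^ m.1 * (Kb 1 s ^ 2) ^ m.2.1 * (Kb 2 s ^ 2) ^ m.2.2.1 * (Kb 3 s ^ 2) ^ m.2.2.2

noncomputable def PB (s : ℕ) : BB :=
  monoB (3, 1, 0, 0) s + monoB (0, 3, 1, 0) s + monoB (0, 0, 3, 1) s + monoB (1, 0, 0, 3) s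

/-- The generic composition at `s`. -/
noncomputable def TB (s : ℕ) : BB :=
  PB s + ∑ m : Fin 35, X (Sum.inl m) * monoB (ex m) s

/-- The coefficients of the four special polynomials. -/
def kc (i : Fin 4) (j : Fin 9) : ℕ :=
  (([[1, 1, 0, 0, 0, 0, 0, 0, 0], [0, 0, 0, 1, 1, 0, 0, 1, 0], [0, 0, 1, 0, 0, 3, 0, 0, 2],
    [1, 0, 2, 0, 0, 0, 0, 1, 0]] : List (List ℕ)).getD (i : ℕ) []).getD (j : ℕ) 0

/-- The special point. -/
noncomputable def th : Par → ℂ
  | Sum.inl _ => 0
  | Sum.inr (i, j) => (kc i j : ℂ)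

theorem ev_Kb (i : Fin 4) (s : ℕ) : eval th (Kb i s) = ((kv i s : ℕ) : ℂ) := by
  unfold Kb
  rw [map_sum]
  simp only [map_mul, eval_C, eval_X, th]
  fin_cases i <;> simp [Fin.sum_univ_succ, kc, kv] <;> ring

theorem pd_inl_Kb (m : Fin 35) (i : Fin 4) (s : ℕ) : pderiv (Sum.inl m) (Kb i s) = 0 := by
  unfold Kb
  rw [map_sum]
  refine Finset.sum_eq_zero fun j _ => ?_
  rw [pderiv_C_mul, pderiv_X_of_ne (by simp), mul_zero]

theorem pd_inr_Kb (i' : Fin 4) (j : Fin 9) (i : Fin 4) (s : ℕ) :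
    pderiv (Sum.inr (i', j) : Par) (Kb i s) = if i = i' then C ((s : ℂ) ^ (j : ℕ)) else 0 := by
  unfold Kb
  rw [map_sum]
  simp only [pderiv_C_mul, pderiv_X, Pi.single_apply]
  by_cases h : i = i'
  · subst h
    simp [Prod.ext_iff, Finset.sum_ite_eq']
  · simp [Prod.ext_iff, h]

theorem pd_inl_monoB (m : Fin 35) (e : ℕ × ℕ × ℕ × ℕ) (s : ℕ) :
    pderiv (Sum.inl m) (monoB e s) = 0 := by
  unfold monoB
  simp [Derivation.leibniz, Derivation.leibniz_pow, pd_inl_Kb]

theorem ev_monoB (e : ℕ × ℕ × ℕ × ℕ) (s : ℕ) :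
    eval th (monoB e s) = ((mono e s : ℕ) : ℂ) := by
  unfold monoB mono
  simp only [map_mul, map_pow, ev_Kb]
  push_cast
  rfl

theorem ev_pd_inl (m : Fin 35) (s : ℕ) :
    eval th (pderiv (Sum.inl m) (TB s)) = ((mono (ex m) s : ℕ) : ℂ) := by
  unfold TB PB
  simp only [map_add, pd_inl_monoB, map_sum, Derivation.leibniz, zero_add, pderiv_X,
    Pi.single_apply, smul_eq_mul]
  rw [Finset.sum_eq_single m]
  · simp [ev_monoB]
  · intro b _ hb
    simp [hb]
  · simp

theorem ev_pd_inr (i : Fin 4) (j : Fin 9) (s : ℕ) :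
    eval th (pderiv (Sum.inr (i, j) : Par) (TB s)) =
      ((2 * kv i s * dP i s * s ^ (j : ℕ) : ℕ) : ℂ) := by
  unfold TB
  have h0 : ∀ m : Fin 35, eval th (pderiv (Sum.inr (i, j) : Par)
      (X (Sum.inl m) * monoB (ex m) s)) = 0 := by
    intro m
    rw [Derivation.leibniz, map_add, smul_eq_mul, smul_eq_mul, map_mul, map_mul, eval_X,
      pderiv_X_of_ne (by simp)]
    simp [th]
  rw [map_add, map_add, map_sum, map_sum, Finset.sum_eq_zero fun m _ => h0 m, add_zero]
  unfold PB monoB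
  simp only [map_add, Derivation.leibniz, Derivation.leibniz_pow, pd_inr_Kb]
  fin_cases i <;> simp [ev_Kb, dP] <;> ring


theorem dot_eq : ∀ (l c : List ℕ) (n a : ℕ), l.length = n →
    dot l c a = a + ∑ k ∈ Finset.range n, l.getD k 0 * c.getD k 0 := by
  intro l
  induction l with
  | nil =>
    intro c n a h
    subst h
    simp [dot]
  | cons x xs ih =>
    intro c n a h
    cases c with
    | nil =>
      subst h
      simp [dot]
    | cons y ys =>
      subst h
      rw [dot, ih ys xs.length _ rfl, List.length_cons, Finset.sum_range_succ']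
      simp
      ring

theorem dot_mod : ∀ (l c : List ℕ) (a b : ℕ), a % 101 = b % 101 →
    dot (l.map fun x => x % 101) c a % 101 = dot l c b % 101 := by
  intro l
  induction l with
  | nil =>
    intro c a b h
    simp [dot, h]
  | cons x xs ih =>
    intro c a b h
    cases c with
    | nil => simp [dot, h]
    | cons y ys =>
      rw [List.map_cons, dot, dot]
      apply ih
      rw [Nat.add_mod, h, Nat.mod_mul_mod, ← Nat.add_mod]

/-- The coefficients of a derivation. -/
def cN (c : List ℕ) : Par → ℕ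
  | Sum.inl m => c.getD (m : ℕ) 0
  | Sum.inr (i, j) => c.getD (35 + 9 * (i : ℕ) + (j : ℕ)) 0

/-- The entries of the Jacobian matrix. -/
def Me (s : ℕ) : Par → ℕ
  | Sum.inl m => mono (ex m) s
  | Sum.inr (i, j) => 2 * kv i s * dP i s * s ^ (j : ℕ)

theorem sum_split (f : ℕ → ℕ) : ∑ k ∈ Finset.range 71, f k =
    ∑ m : Fin 35, f m + ∑ x : Fin 4 × Fin 9, f (35 + 9 * (x.1 : ℕ) + (x.2 : ℕ)) := by
  rw [Fintype.sum_prod_type]
  rw [Fin.sum_univ_eq_sum_range (fun k => f k) 35]
  simp only [Finset.sum_range_succ, Finset.sum_range_zero, Fin.sum_univ_succ, Fin.sum_univ_zero]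
  simp
  ring

theorem row_sum (s : ℕ) (c : List ℕ) : dot (rowN s) c 0 = ∑ b : Par, cN c b * Me s b := by
  have hlen : (rowN s).length = 71 := by
    unfold rowN
    rw [List.length_map, List.length_range]
  have h0 : dot (rowN s) c 0 = 0 + ∑ k ∈ Finset.range 71, (rowN s).getD k 0 * c.getD k 0 :=
    dot_eq _ _ 71 0 hlen
  rw [h0, zero_add]
  have h1 : ∑ k ∈ Finset.range 71, (rowN s).getD k 0 * c.getD k 0 =
      ∑ k ∈ Finset.range 71, rowF s k * c.getD k 0 := by
    refine Finset.sum_congr rfl fun k hk => ?_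
    have hk' := Finset.mem_range.1 hk
    have h2 : (rowN s).getD k 0 = rowF s k := by
      unfold rowN
      rw [List.getD_eq_getElem?_getD]
      simp [hk']
    rw [h2]
  rw [h1]
  have h2 := sum_split fun k => rowF s k * c.getD k 0
  rw [h2, Fintype.sum_sum_type]
  have h3 : ∀ m : Fin 35, rowF s m * c.getD m 0 = cN c (Sum.inl m) * Me s (Sum.inl m) := by
    intro m
    have h4 : rowF s m = Me s (Sum.inl m) := by
      unfold rowF Me ex
      rw [if_pos m.2]
    have h5 : cN c (Sum.inl m) = c.getD m 0 := rfl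
    rw [h4, h5, mul_comm]
  have h4 : ∀ x : Fin 4 × Fin 9, rowF s (35 + 9 * (x.1 : ℕ) + (x.2 : ℕ)) *
      c.getD (35 + 9 * (x.1 : ℕ) + (x.2 : ℕ)) 0 = cN c (Sum.inr x) * Me s (Sum.inr x) := by
    rintro ⟨i, j⟩
    have h5 : rowF s (35 + 9 * (i : ℕ) + (j : ℕ)) = Me s (Sum.inr (i, j)) := by
      unfold rowF Me
      have h2 : (35 + 9 * (i : ℕ) + (j : ℕ) - 35) / 9 = i := by omega
      have h3 : (35 + 9 * (i : ℕ) + (j : ℕ) - 35) % 9 = j := by omega
      rw [if_neg (by omega), h2, h3]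
    have h6 : cN c (Sum.inr (i, j)) = c.getD (35 + 9 * (i : ℕ) + (j : ℕ)) 0 := rfl
    rw [h5, h6, mul_comm]
  rw [Finset.sum_congr rfl fun m _ => h3 m, Finset.sum_congr rfl fun x _ => h4 x]

theorem exists_cols : ∃ c : Fin 65 → List ℕ, ∀ s t : Fin 65,
    (∑ b : Par, cN (c t) b * Me s b) % 101 = if s = t then 1 else 0 := by
  refine ⟨fun t => Nc.getD t [], fun s t => ?_⟩
  have h1 := check_inv
  have h2 := check_rows
  have h7 : (t : ℕ) < Nc.length := lt_of_lt_of_eq t.2 (by decide +kernel)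
  have h6 : (Nc[(t : ℕ)]?) = some (Nc.getD t []) := by
    rw [List.getD_eq_getElem _ _ h7, List.getElem?_eq_getElem h7]
  generalize Nc = N at *
  have h3 : dot ((rowN s).map fun x => x % 101) (N.getD t []) 0 % 101 =
      if s = t then 1 else 0 := by
    have h4 : (Mr.map fun r => N.map fun c => dot r c 0 % 101)[(s : ℕ)]? =
      ((List.range 65).map fun s => (List.range 65).map fun t => if s = t then 1 else 0)[(s : ℕ)]? := by
      rw [h1]
    rw [← h2] at h4
    simp only [List.getElem?_map, List.getElem?_range s.2, Option.map_some, Option.some.injEq] at h4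
    have h5 := congrArg (fun l => l[(t : ℕ)]?) h4
    simp only [List.getElem?_map, List.getElem?_range t.2, Option.map_some] at h5
    rw [h6, Option.map_some, Option.some.injEq] at h5
    rw [h5]
    simp [Fin.ext_iff]
  rw [← row_sum, ← h3]
  exact (dot_mod _ _ 0 0 rfl).symm

theorem sum_deriv (v : Par → ℂ) (S : Finset Par) :
    ∃ D : Derivation ℂ BB BB, ∀ f, D f = ∑ b ∈ S, v b • pderiv b f := by
  classical
  induction S using Finset.induction_on with
  | empty => exact ⟨0, fun f => by simp⟩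
  | insert a S ha ih =>
    obtain ⟨D, hD⟩ := ih
    refine ⟨v a • pderiv a + D, fun f => ?_⟩
    rw [Derivation.add_apply, Derivation.smul_apply, Finset.sum_insert ha, hD]

/-- The derivations of the certificate. -/
noncomputable def DB (c : List ℕ) : Derivation ℂ BB BB :=
  (sum_deriv (fun b => ((cN c b : ℕ) : ℂ)) Finset.univ).choose

theorem DB_apply (c : List ℕ) (f : BB) :
    DB c f = ∑ b : Par, ((cN c b : ℕ) : ℂ) • pderiv b f :=
  (sum_deriv (fun b => ((cN c b : ℕ) : ℂ)) Finset.univ).choose_spec f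

theorem ev_DB (s : Fin 65) (c : List ℕ) :
    eval th (DB c (TB s)) = (((∑ b : Par, cN c b * Me s b : ℕ) : ℤ) : ℂ) := by
  rw [DB_apply]
  simp only [map_sum, smul_eval]
  push_cast
  refine Finset.sum_congr rfl fun b _ => ?_
  have h : eval th (pderiv b (TB s)) = ((Me s b : ℕ) : ℂ) := by
    rcases b with m | ⟨i, j⟩
    · rw [ev_pd_inl]
      rfl
    · rw [ev_pd_inr]
      rfl
  rw [h]

theorem algInd_TB : AlgebraicIndependent ℂ (fun s : Fin 65 => TB s) := by
  obtain ⟨c, hc⟩ := exists_cols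
  refine algInd_of_det (fun t => DB (c t)) _ ?_
  intro h0
  have h1 := congrArg (eval th) h0
  rw [map_zero, RingHom.map_det] at h1
  have h2 : (eval th).mapMatrix (Matrix.of fun s t : Fin 65 => (DB (c t)) (TB s)) =
      (Int.castRingHom ℂ).mapMatrix (Matrix.of fun s t : Fin 65 =>
        ((∑ b : Par, cN (c t) b * Me s b : ℕ) : ℤ)) := by
    ext s t
    simp only [RingHom.mapMatrix_apply, Matrix.map_apply, Matrix.of_apply]
    rw [ev_DB]
    rfl
  rw [h2, ← RingHom.map_det] at h1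
  have h3 : (Matrix.of fun s t : Fin 65 => ((∑ b : Par, cN (c t) b * Me s b : ℕ) : ℤ)).det = 0 :=
    (Int.cast_injective (α := ℂ)) (by rw [Int.cast_zero]; exact h1)
  have h4 := congrArg (Int.castRingHom (ZMod 101)) h3
  rw [map_zero, RingHom.map_det] at h4
  have h5 : (Int.castRingHom (ZMod 101)).mapMatrix (Matrix.of fun s t : Fin 65 =>
        ((∑ b : Par, cN (c t) b * Me s b : ℕ) : ℤ)) = 1 := by
    ext s t
    simp only [RingHom.mapMatrix_apply, Matrix.map_apply, Matrix.of_apply]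
    rw [Matrix.one_apply]
    have h6 := hc s t
    have h7 : (Int.castRingHom (ZMod 101)) ((∑ b : Par, cN (c t) b * Me s b : ℕ) : ℤ) =
        ((∑ b : Par, cN (c t) b * Me s b : ℕ) : ZMod 101) := by
      rw [eq_intCast, Int.cast_natCast]
    rw [h7, ← ZMod.natCast_mod, h6]
    split_ifs <;> simp
  rw [h5, Matrix.det_one] at h4
  exact absurd h4 (by decide)

end Pool.Agent.Y238.UW
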