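import Mathlib
import Pool.Agent.Y238.UW.Fam
import Pool.Agent.Y238.UW.Indep

/-!
# The network in one variable: realisation of compositions and density
-/

set_option autoImplicit false

namespace Pool.Agent.Y238.UW

open Polynomial

/-- One layer. -/
noncomputable def st (n : ℕ) (w : ℕ → ℕ → ℂ) (h : ℕ → ℂ[X]) (a : ℕ) : ℂ[X] :=
  ∑ b ∈ Finset.range n, C (w a b) * h b ^ 2

/-- The first layer. -/
noncomputable def ls (w : ℕ → ℕ → ℂ) (a : ℕ) : ℂ[X] := C (w a 0) * X + C (w a 1)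

/-- The octics. -/
noncomputable def U4 (e : Fin 8 → ℕ) (W : Fin 7 → ℕ → ℕ → ℂ) : ℕ → ℂ[X] :=
  st (e 3) (W 3) (st (e 2) (W 2) (st (e 1) (W 1) (ls (W 0))))

/-- The output. -/
noncomputable def U7 (e : Fin 8 → ℕ) (W : Fin 7 → ℕ → ℕ → ℂ) : ℕ → ℂ[X] :=
  st (e 6) (W 6) (st (e 5) (W 5) (st (e 4) (W 4) (U4 e W)))

/-- Sums of two members of a family. -/
noncomputable def pv {k : ℕ} (f : Fin k → ℂ[X]) (b : Fin (k * k)) : ℂ[X] :=
  f (finProdFinEquiv.symm b).1 + f (finProdFinEquiv.symm b).2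

theorem mul_mem_sq {k : ℕ} (f : Fin k → ℂ[X]) (i j : Fin k) :
    f i * f j ∈ Submodule.span ℂ (Set.range fun b => pv f b ^ 2) := by
  have h1 : ∀ i j, (f i + f j) ^ 2 ∈ Submodule.span ℂ (Set.range fun b => pv f b ^ 2) := by
    intro i j
    refine Submodule.subset_span ⟨finProdFinEquiv (i, j), ?_⟩
    simp [pv]
  have h2 : f i * f j = (1 / 2 : ℂ) • (f i + f j) ^ 2 - (1 / 8 : ℂ) • (f i + f i) ^ 2 -
      (1 / 8 : ℂ) • (f j + f j) ^ 2 := by
    simp only [smul_eq_C_mul]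
    have e1 : (C (1 / 2 : ℂ)) = 4 * C (1 / 8 : ℂ) := by
      rw [show (4 : ℂ[X]) = C 4 from rfl, ← C_mul]
      norm_num
    have e2 : (8 : ℂ[X]) * C (1 / 8 : ℂ) = 1 := by
      rw [show (8 : ℂ[X]) = C 8 from rfl, ← C_mul]
      norm_num
    rw [e1]
    linear_combination (- f i * f j) * e2
  rw [h2]
  exact Submodule.sub_mem _ (Submodule.sub_mem _ (Submodule.smul_mem _ _ (h1 i j))
    (Submodule.smul_mem _ _ (h1 i i))) (Submodule.smul_mem _ _ (h1 j j))

theorem exists_layer (n : ℕ) (v : Fin n → ℂ[X]) (g : ℕ → ℂ[X])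
    (hg : ∀ a, g a ∈ Submodule.span ℂ (Set.range fun b => v b ^ 2)) :
    ∃ w : ℕ → ℕ → ℂ, ∀ h : ℕ → ℂ[X], (∀ b : Fin n, h b = v b) → st n w h = g := by
  have h1 : ∀ a, ∃ c : Fin n → ℂ, ∑ b, c b • v b ^ 2 = g a := fun a =>
    (Submodule.mem_span_range_iff_exists_fun ℂ).1 (hg a)
  choose c hc using h1
  refine ⟨fun a b => if hb : b < n then c a ⟨b, hb⟩ else 0, fun h hh => ?_⟩
  funext a
  unfold st
  rw [← hc a, ← Fin.sum_univ_eq_sum_range (fun b => C (if hb : b < n then c a ⟨b, hb⟩ else 0) *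
    h b ^ 2) n]
  refine Finset.sum_congr rfl fun b _ => ?_
  rw [dif_pos b.2, hh b, smul_eq_C_mul]

/-- The extension of a finite family by zero. -/
noncomputable def exf {n : ℕ} (v : Fin n → ℂ[X]) (a : ℕ) : ℂ[X] :=
  if h : a < n then v ⟨a, h⟩ else 0

theorem exf_apply {n : ℕ} (v : Fin n → ℂ[X]) (b : Fin n) : exf v b = v b := by
  unfold exf
  rw [dif_pos b.2]

theorem exf_mem {n : ℕ} (v : Fin n → ℂ[X]) (S : Submodule ℂ ℂ[X]) (h : ∀ b, v b ∈ S) (a : ℕ) :
    exf v a ∈ S := by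
  unfold exf
  split_ifs with h1
  · exact h _
  · exact S.zero_mem

/-- The powers of the variable. -/
noncomputable def pw (n : ℕ) (i : Fin (n + 1)) : ℂ[X] := X ^ (i : ℕ)

theorem pow_mem_sq (n m : ℕ) (h : m ≤ 2 * n) :
    (X ^ m : ℂ[X]) ∈ Submodule.span ℂ (Set.range fun b => pv (pw n) b ^ 2) := by
  have h1 := mul_mem_sq (pw n) ⟨min m n, by omega⟩ ⟨m - min m n, by omega⟩
  simp only [pw] at h1
  rw [← pow_add] at h1
  have h2 : min m n + (m - min m n) = m := by omega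
  rw [h2] at h1
  exact h1

theorem deg_mem_sq (n : ℕ) (p : ℂ[X]) (h : p.natDegree ≤ 2 * n) :
    p ∈ Submodule.span ℂ (Set.range fun b => pv (pw n) b ^ 2) := by
  rw [p.as_sum_range_C_mul_X_pow' (Nat.lt_succ_of_le h)]
  refine Submodule.sum_mem _ fun i hi => ?_
  rw [← smul_eq_C_mul]
  refine Submodule.smul_mem _ _ (pow_mem_sq n i ?_)
  have := Finset.mem_range.1 hi
  omega

theorem natDegree_pv_pw (n : ℕ) (b : Fin ((n + 1) * (n + 1))) :
    (pv (pw n) b).natDegree ≤ n := by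
  unfold pv pw
  refine natDegree_add_le_of_degree_le ?_ ?_
  · rw [natDegree_X_pow]; omega
  · rw [natDegree_X_pow]; omega

/-- The width vector. -/
def dstar : Fin 8 → ℕ := ![2, 4, 9, 25, 4, 16, 256, 1]

/-- Products of two members. -/
noncomputable def pr (y : Fin 4 → ℂ[X]) (b : Fin (4 * 4)) : ℂ[X] :=
  y (finProdFinEquiv.symm b).1 * y (finProdFinEquiv.symm b).2

theorem realize (K : Fin 4 → ℂ[X]) (hK : ∀ i, (K i).natDegree ≤ 8) (g : ℂ[X])
    (hg : g ∈ Submodule.span ℂ (Set.range fun b => pv (pr fun i => K i ^ 2) b ^ 2)) :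
    ∃ W : Fin 7 → ℕ → ℕ → ℂ, U7 dstar W 0 = g := by
  -- layer 1
  obtain ⟨w0, h0⟩ : ∃ w0 : ℕ → ℕ → ℂ, ∀ a, ls w0 a = exf (pv (pw 1)) a := by
    refine ⟨fun a b => if b = 0 then (exf (pv (pw 1)) a).coeff 1 else
      (exf (pv (pw 1)) a).coeff 0, fun a => ?_⟩
    have h1 : (exf (pv (pw 1)) a).natDegree ≤ 1 := by
      unfold exf
      split_ifs
      · exact natDegree_pv_pw 1 _
      · simp
    unfold ls
    conv_rhs => rw [eq_X_add_C_of_natDegree_le_one h1]
    simp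
  -- layer 2
  obtain ⟨w1, h1⟩ := exists_layer 4 (pv (pw 1)) (exf (pv (pw 2))) fun a =>
    exf_mem _ _ (fun b => deg_mem_sq 1 _ (natDegree_pv_pw 2 b)) a
  -- layer 3
  obtain ⟨w2, h2⟩ := exists_layer 9 (pv (pw 2)) (exf (pv (pw 4))) fun a =>
    exf_mem _ _ (fun b => deg_mem_sq 2 _ (natDegree_pv_pw 4 b)) a
  -- layer 4
  obtain ⟨w3, h3⟩ := exists_layer 25 (pv (pw 4)) (exf K) fun a =>
    exf_mem _ _ (fun b => deg_mem_sq 4 _ (hK b)) a
  -- layer 5
  obtain ⟨w4, h4⟩ := exists_layer 4 K (exf (pv fun i => K i ^ 2)) fun a =>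
    exf_mem _ _ (fun b => by
      unfold pv
      exact Submodule.add_mem _ (Submodule.subset_span (Set.mem_range_self _))
        (Submodule.subset_span (Set.mem_range_self _))) a
  -- layer 6
  obtain ⟨w5, h5⟩ := exists_layer 16 (pv fun i => K i ^ 2) (exf (pv (pr fun i => K i ^ 2)))
    fun a => exf_mem _ _ (fun b => Submodule.add_mem _ (mul_mem_sq (fun i => K i ^ 2) _ _)
      (mul_mem_sq (fun i => K i ^ 2) _ _)) a
  -- layer 7
  obtain ⟨w6, h6⟩ := exists_layer 256 (pv (pr fun i => K i ^ 2)) (fun _ => g) fun _ => hg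
  refine ⟨![w0, w1, w2, w3, w4, w5, w6], ?_⟩
  have e1 : st 4 w1 (ls w0) = exf (pv (pw 2)) := h1 _ fun b => by rw [h0]; exact exf_apply _ b
  have e2 : st 9 w2 (exf (pv (pw 2))) = exf (pv (pw 4)) := h2 _ fun b => exf_apply _ b
  have e3 : st 25 w3 (exf (pv (pw 4))) = exf K := h3 _ fun b => exf_apply _ b
  have e4 : st 4 w4 (exf K) = exf (pv fun i => K i ^ 2) := h4 _ fun b => exf_apply _ b
  have e5 : st 16 w5 (exf (pv fun i => K i ^ 2)) = exf (pv (pr fun i => K i ^ 2)) :=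
    h5 _ fun b => exf_apply _ b
  have e6 : st 256 w6 (exf (pv (pr fun i => K i ^ 2))) = fun _ => g :=
    h6 _ fun b => exf_apply _ b
  change st 256 w6 (st 16 w5 (st 4 w4 (st 25 w3 (st 9 w2 (st 4 w1 (ls w0)))))) 0 = g
  rw [e1, e2, e3, e4, e5, e6]

/-- The value of a monomial. -/
noncomputable def monoX (e : ℕ × ℕ × ℕ × ℕ) (K : Fin 4 → ℂ[X]) : ℂ[X] :=
  (K 0 ^ 2) ^ e.1 * (K 1 ^ 2) ^ e.2.1 * (K 2 ^ 2) ^ e.2.2.1 * (K 3 ^ 2) ^ e.2.2.2

theorem peel (n a b c d : ℕ) (h : a + b + c + d = n + 1) (y : Fin 4 → ℂ[X]) :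
    ∃ (i : Fin 4) (a' b' c' d' : ℕ), a' + b' + c' + d' = n ∧
      y 0 ^ a * y 1 ^ b * y 2 ^ c * y 3 ^ d = y i * (y 0 ^ a' * y 1 ^ b' * y 2 ^ c' * y 3 ^ d') := by
  rcases a with _ | a
  · rcases b with _ | b
    · rcases c with _ | c
      · rcases d with _ | d
        · omega
        · exact ⟨3, 0, 0, 0, d, by omega, by ring⟩
      · exact ⟨2, 0, 0, c, d, by omega, by ring⟩
    · exact ⟨1, 0, b, c, d, by omega, by ring⟩
  · exact ⟨0, a, b, c, d, by omega, by ring⟩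

theorem monoX_mem (e : ℕ × ℕ × ℕ × ℕ) (h : e.1 + e.2.1 + e.2.2.1 + e.2.2.2 = 4)
    (K : Fin 4 → ℂ[X]) :
    monoX e K ∈ Submodule.span ℂ (Set.range fun b => pv (pr fun i => K i ^ 2) b ^ 2) := by
  unfold monoX
  obtain ⟨i, a1, b1, c1, d1, h1, e1⟩ := peel 3 _ _ _ _ h fun i => K i ^ 2
  obtain ⟨j, a2, b2, c2, d2, h2, e2⟩ := peel 2 _ _ _ _ h1 fun i => K i ^ 2
  obtain ⟨k, a3, b3, c3, d3, h3, e3⟩ := peel 1 _ _ _ _ h2 fun i => K i ^ 2
  obtain ⟨l, a4, b4, c4, d4, h4, e4⟩ := peel 0 _ _ _ _ h3 fun i => K i ^ 2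
  have h5 : a4 = 0 := by omega
  have h6 : b4 = 0 := by omega
  have h7 : c4 = 0 := by omega
  have h8 : d4 = 0 := by omega
  subst h5 h6 h7 h8
  rw [e1, e2, e3, e4]
  have h9 := mul_mem_sq (pr fun i => K i ^ 2) (finProdFinEquiv (i, j)) (finProdFinEquiv (k, l))
  have h10 : pr (fun i => K i ^ 2) (finProdFinEquiv (i, j)) *
      pr (fun i => K i ^ 2) (finProdFinEquiv (k, l)) =
      K i ^ 2 * (K j ^ 2 * (K k ^ 2 * (K l ^ 2 *
        ((K 0 ^ 2) ^ 0 * (K 1 ^ 2) ^ 0 * (K 2 ^ 2) ^ 0 * (K 3 ^ 2) ^ 0)))) := by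
    simp only [pr, Equiv.symm_apply_apply]
    ring
  rw [← h10]
  exact h9

/-- The composition with parameters `t`. -/
noncomputable def gt (t : Par → ℂ) : ℂ[X] :=
  let K : Fin 4 → ℂ[X] := fun i => gp fun j : Fin 9 => t (Sum.inr (i, j))
  monoX (3, 1, 0, 0) K + monoX (0, 3, 1, 0) K + monoX (0, 0, 3, 1) K + monoX (1, 0, 0, 3) K +
    ∑ m : Fin 35, C (t (Sum.inl m)) * monoX (ex m) K

theorem ex_sum : ∀ m : Fin 35, (ex m).1 + (ex m).2.1 + (ex m).2.2.1 + (ex m).2.2.2 = 4 := by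
  decide +kernel

theorem gt_real (t : Par → ℂ) : ∃ W : Fin 7 → ℕ → ℕ → ℂ, U7 dstar W 0 = gt t := by
  refine realize (fun i => gp fun j : Fin 9 => t (Sum.inr (i, j))) ?_ _ ?_
  · intro i
    unfold gp
    refine natDegree_sum_le_of_forall_le _ _ fun j _ => ?_
    refine (natDegree_C_mul_X_pow_le _ _).trans ?_
    omega
  · unfold gt
    refine Submodule.add_mem _ (Submodule.add_mem _ (Submodule.add_mem _ (Submodule.add_mem _
      (monoX_mem _ rfl _) (monoX_mem _ rfl _)) (monoX_mem _ rfl _)) (monoX_mem _ rfl _)) ?_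
    refine Submodule.sum_mem _ fun m _ => ?_
    rw [← smul_eq_C_mul]
    exact Submodule.smul_mem _ _ (monoX_mem _ (ex_sum m) _)

theorem eval_gp (t : Par → ℂ) (i : Fin 4) (s : ℕ) :
    (gp fun j : Fin 9 => t (Sum.inr (i, j))).eval (s : ℂ) = MvPolynomial.eval t (Kb i s) := by
  unfold gp Kb
  rw [eval_finsetSum, map_sum]
  refine Finset.sum_congr rfl fun j _ => ?_
  simp
  ring

theorem eval_monoX (t : Par → ℂ) (e : ℕ × ℕ × ℕ × ℕ) (s : ℕ) :
    (monoX e fun i => gp fun j : Fin 9 => t (Sum.inr (i, j))).eval (s : ℂ) =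
      MvPolynomial.eval t (monoB e s) := by
  unfold monoX monoB
  simp only [eval_mul, eval_pow, map_mul, map_pow, eval_gp]

theorem eval_gt (t : Par → ℂ) (s : ℕ) : (gt t).eval (s : ℂ) = MvPolynomial.eval t (TB s) := by
  unfold gt TB PB
  simp only [eval_add, eval_finsetSum, eval_mul, eval_C, eval_monoX, map_add, map_sum, map_mul,
    MvPolynomial.eval_X]

theorem natDegree_gt (t : Par → ℂ) : (gt t).natDegree ≤ 64 := by
  have hK : ∀ i : Fin 4, (gp fun j : Fin 9 => t (Sum.inr (i, j))).natDegree ≤ 8 := by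
    intro i
    unfold gp
    refine natDegree_sum_le_of_forall_le _ _ fun j _ => ?_
    refine (natDegree_C_mul_X_pow_le _ _).trans ?_
    omega
  have hm : ∀ e : ℕ × ℕ × ℕ × ℕ, e.1 + e.2.1 + e.2.2.1 + e.2.2.2 = 4 →
      (monoX e fun i => gp fun j : Fin 9 => t (Sum.inr (i, j))).natDegree ≤ 64 := by
    intro e he
    unfold monoX
    have h1 : ∀ (i : Fin 4) (a : ℕ),
        (((gp fun j : Fin 9 => t (Sum.inr (i, j))) ^ 2) ^ a).natDegree ≤ 16 * a := by
      intro i a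
      rw [← pow_mul]
      refine (natDegree_pow_le).trans ?_
      have := Nat.mul_le_mul_left (2 * a) (hK i)
      omega
    have h2 := natDegree_mul_le_of_le (natDegree_mul_le_of_le (natDegree_mul_le_of_le (h1 0 e.1)
      (h1 1 e.2.1)) (h1 2 e.2.2.1)) (h1 3 e.2.2.2)
    refine h2.trans ?_
    omega
  unfold gt
  refine natDegree_add_le_of_degree_le (natDegree_add_le_of_degree_le
    (natDegree_add_le_of_degree_le (natDegree_add_le_of_degree_le (hm _ rfl) (hm _ rfl))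
      (hm _ rfl)) (hm _ rfl)) ?_
  refine natDegree_sum_le_of_forall_le _ _ fun m _ => ?_
  exact (natDegree_C_mul_le _ _).trans (hm _ (ex_sum m))

/-- The outputs of the network with widths `dstar` are Zariski dense. -/
theorem dense (Q : MvPolynomial (Fin 65) ℂ) (hQ : ∀ W : Fin 7 → ℕ → ℕ → ℂ,
    MvPolynomial.eval (fun s : Fin 65 => (U7 dstar W 0).coeff s) Q = 0) : Q = 0 := by
  classical
  let V : Matrix (Fin 65) (Fin 65) ℂ := Matrix.vandermonde fun s => ((s : ℕ) : ℂ)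
  have hV : IsUnit V.det := by
    rw [isUnit_iff_ne_zero, Matrix.det_vandermonde_ne_zero_iff]
    intro a b hab
    exact Fin.ext (Nat.cast_injective hab)
  let Q' : MvPolynomial (Fin 65) ℂ :=
    MvPolynomial.bind₁ (fun l => ∑ s, MvPolynomial.C (V⁻¹ l s) * MvPolynomial.X s) Q
  have hQ' : ∀ v : Fin 65 → ℂ, MvPolynomial.eval v Q' = MvPolynomial.eval (V⁻¹.mulVec v) Q := by
    intro v
    simp only [Q']
    rw [MvPolynomial.eval, MvPolynomial.eval₂Hom_bind₁]
    congr 1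
    congr 1
    funext l
    simp [Matrix.mulVec, dotProduct]
  have h1 : MvPolynomial.aeval (fun s : Fin 65 => TB s) Q' = 0 := by
    apply MvPolynomial.funext
    intro t
    rw [map_zero]
    have h2 : MvPolynomial.eval t (MvPolynomial.aeval (fun s : Fin 65 => TB s) Q') =
        MvPolynomial.eval (fun s : Fin 65 => MvPolynomial.eval t (TB s)) Q' := by
      rw [MvPolynomial.aeval_def, ← MvPolynomial.coe_eval₂Hom, ← RingHom.comp_apply]
      have h3 : (MvPolynomial.eval t).comp (MvPolynomial.eval₂Hom (algebraMap ℂ BB)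
          fun s : Fin 65 => TB s) = MvPolynomial.eval fun s : Fin 65 =>
            MvPolynomial.eval t (TB s) := by
        apply MvPolynomial.ringHom_ext
        · intro r
          simp
        · intro i
          simp
      rw [h3]
    rw [h2, hQ']
    obtain ⟨W, hW⟩ := gt_real t
    have h4 : V⁻¹.mulVec (fun s : Fin 65 => MvPolynomial.eval t (TB s)) =
        fun s : Fin 65 => (U7 dstar W 0).coeff s := by
      have h5 : V.mulVec (fun s : Fin 65 => (U7 dstar W 0).coeff s) =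
          fun s : Fin 65 => MvPolynomial.eval t (TB s) := by
        funext s
        rw [hW, ← eval_gt, eval_eq_sum_range' (Nat.lt_succ_of_le (natDegree_gt t)),
          ← Fin.sum_univ_eq_sum_range (fun i => (gt t).coeff i * ((s : ℕ) : ℂ) ^ i) 65]
        simp only [Matrix.mulVec, dotProduct, V, Matrix.vandermonde_apply]
        exact Finset.sum_congr rfl fun i _ => mul_comm _ _
      rw [← h5, Matrix.mulVec_mulVec, Matrix.nonsing_inv_mul _ hV, Matrix.one_mulVec]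
    rw [h4]
    exact hQ W
  have h2 : Q' = 0 := by
    have := (algebraicIndependent_iff.1 algInd_TB) Q' h1
    exact this
  apply MvPolynomial.funext
  intro c
  have h3 := hQ' (V.mulVec c)
  rw [Matrix.mulVec_mulVec, Matrix.nonsing_inv_mul _ hV, Matrix.one_mulVec, h2] at h3
  rw [← h3, map_zero, map_zero]

end Pool.Agent.Y238.UW
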