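import Mathlib
import Pool.Agent.Y238.UW.Real

/-!
# Width vectors with few parameters do not fill
-/

set_option autoImplicit false

namespace Pool.Agent.Y238.UW

open Polynomial

theorem sum_pad {A : Type} [AddCommMonoid A] (n k : ℕ) (h : n ≤ k) (f : ℕ → A) :
    ∑ b ∈ Finset.range n, f b = ∑ b : Fin k, if (b : ℕ) < n then f b else 0 := by
  rw [Fin.sum_univ_eq_sum_range (fun b => if b < n then f b else 0) k]
  rw [← Finset.sum_filter]
  congr 1
  ext b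
  simp
  omega

/-- A quartic form evaluated at `y`. -/
theorem aeval_eq_Fam (f : MvPolynomial (Fin 4) ℂ) (hf : f.IsHomogeneous 4) (y : Fin 4 → ℂ[X]) :
    ∃ P : M4 → ℂ, MvPolynomial.aeval y f = Fam y P := by
  classical
  refine ⟨fun m => f.coeff (Finsupp.equivFunOnFinite.symm m.1), ?_⟩
  rw [MvPolynomial.aeval_def, MvPolynomial.eval₂_eq']
  unfold Fam
  have h1 : ∑ m : M4, C (f.coeff (Finsupp.equivFunOnFinite.symm m.1)) * ∏ i, y i ^ m.1 i =
      ∑ m ∈ Finset.Nat.antidiagonalTuple 4 4,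
        C (f.coeff (Finsupp.equivFunOnFinite.symm m)) * ∏ i, y i ^ m i :=
    Finset.sum_coe_sort (Finset.Nat.antidiagonalTuple 4 4) fun m =>
      C (f.coeff (Finsupp.equivFunOnFinite.symm m)) * ∏ i, y i ^ m i
  rw [h1]
  have h2 : ∑ d ∈ f.support, (algebraMap ℂ ℂ[X]) (f.coeff d) * ∏ i, y i ^ d i =
      ∑ m ∈ f.support.map Finsupp.equivFunOnFinite.toEmbedding,
        C (f.coeff (Finsupp.equivFunOnFinite.symm m)) * ∏ i, y i ^ m i := by
    rw [Finset.sum_map]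
    refine Finset.sum_congr rfl fun d _ => ?_
    simp
  rw [h2]
  refine Finset.sum_subset ?_ ?_
  · intro m hm
    rw [Finset.mem_map] at hm
    obtain ⟨d, hd, rfl⟩ := hm
    rw [Finset.Nat.mem_antidiagonalTuple]
    have h3 := hf (MvPolynomial.mem_support_iff.1 hd)
    refine Eq.trans ?_ h3
    simp [Finsupp.weight_apply, Finsupp.sum_fintype]
  · intro m _ hm
    have h3 : f.coeff (Finsupp.equivFunOnFinite.symm m) = 0 := by
      by_contra h0
      apply hm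
      rw [Finset.mem_map]
      exact ⟨_, MvPolynomial.mem_support_iff.2 h0, by simp⟩
    rw [h3]
    simp

/-- The upper part of the network. -/
theorem upper (w4 : ℕ → Fin 4 → ℂ) (w5 w6 : ℕ → ℕ → ℂ) (n5 n6 : ℕ) (y : Fin 4 → ℂ[X]) :
    ∃ P : M4 → ℂ, st n6 w6 (st n5 w5 fun c => ∑ d, C (w4 c d) * y d) 0 = Fam y P := by
  obtain ⟨P, hP⟩ := aeval_eq_Fam
    (∑ b ∈ Finset.range n6, MvPolynomial.C (w6 0 b) * (∑ c ∈ Finset.range n5,
      MvPolynomial.C (w5 b c) * (∑ d, MvPolynomial.C (w4 c d) * MvPolynomial.X d) ^ 2) ^ 2) (by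
    have hom : ∀ (n : ℕ) (z : ℂ) (g : MvPolynomial (Fin 4) ℂ), g.IsHomogeneous n →
        (MvPolynomial.C z * g).IsHomogeneous n := fun n z g hg => by
      have := (MvPolynomial.isHomogeneous_C (Fin 4) z).mul hg
      rwa [zero_add] at this
    refine MvPolynomial.IsHomogeneous.sum _ _ _ fun b _ => hom _ _ _ ?_
    refine MvPolynomial.IsHomogeneous.pow (m := 2) ?_ 2
    refine MvPolynomial.IsHomogeneous.sum _ _ _ fun c _ => hom _ _ _ ?_
    refine MvPolynomial.IsHomogeneous.pow (m := 1) ?_ 2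
    exact MvPolynomial.IsHomogeneous.sum _ _ _ fun d _ =>
      hom _ _ _ (MvPolynomial.isHomogeneous_X _ _)) y
  refine ⟨P, ?_⟩
  rw [← hP]
  unfold st
  simp only [map_sum, map_mul, map_pow, MvPolynomial.aeval_C, MvPolynomial.aeval_X]
  rfl

/-! ### Degrees -/

theorem natDegree_ls (w : ℕ → ℕ → ℂ) (a : ℕ) : (ls w a).natDegree ≤ 1 := natDegree_linear_le

theorem natDegree_st (n : ℕ) (w : ℕ → ℕ → ℂ) (h : ℕ → ℂ[X]) (d : ℕ)
    (hh : ∀ a, (h a).natDegree ≤ d) (a : ℕ) : (st n w h a).natDegree ≤ 2 * d := by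
  unfold st
  refine natDegree_sum_le_of_forall_le _ _ fun b _ => ?_
  refine (natDegree_C_mul_le _ _).trans ?_
  exact (natDegree_pow_le).trans (Nat.mul_le_mul_left 2 (hh b))

/-- The quartics. -/
noncomputable def U3 (e : Fin 8 → ℕ) (W : Fin 7 → ℕ → ℕ → ℂ) : ℕ → ℂ[X] :=
  st (e 2) (W 2) (st (e 1) (W 1) (ls (W 0)))

theorem natDegree_U3 (e : Fin 8 → ℕ) (W : Fin 7 → ℕ → ℕ → ℂ) (a : ℕ) :
    (U3 e W a).natDegree ≤ 4 :=
  natDegree_st _ _ _ 2 (natDegree_st _ _ _ 1 (natDegree_ls _)) a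

theorem U4_eq (e : Fin 8 → ℕ) (W : Fin 7 → ℕ → ℕ → ℂ) : U4 e W = st (e 3) (W 3) (U3 e W) := rfl

theorem natDegree_U4 (e : Fin 8 → ℕ) (W : Fin 7 → ℕ → ℕ → ℂ) (a : ℕ) :
    (U4 e W a).natDegree ≤ 8 := by
  rw [U4_eq]
  exact natDegree_st _ _ _ 4 (natDegree_U3 e W) a

/-! ### The three cases -/

theorem lowA : ∃ Q : MvPolynomial (Fin 65) ℂ, Q ≠ 0 ∧ ∀ e : Fin 8 → ℕ, e 4 ≤ 3 →
    ∀ W : Fin 7 → ℕ → ℕ → ℂ,
      MvPolynomial.eval (fun s : Fin 65 => (U7 e W 0).coeff s) Q = 0 := by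
  obtain ⟨Q, hQ, h1⟩ := caseA
  refine ⟨Q, hQ, fun e he W => ?_⟩
  let K : Fin 3 → ℂ[X] := fun i => if (i : ℕ) < e 4 then U4 e W i else 0
  have h2 : st (e 4) (W 4) (U4 e W) = fun c => ∑ d : Fin 4, C (W 4 c d) *
      (Fin.snoc (fun i => K i ^ 2) 0 : Fin 4 → ℂ[X]) d := by
    funext c
    unfold st
    rw [sum_pad (e 4) 3 he, Fin.sum_univ_castSucc (n := 3)]
    simp only [Fin.snoc_castSucc, Fin.snoc_last, mul_zero, add_zero]
    refine Finset.sum_congr rfl fun i _ => ?_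
    by_cases hi : (i : ℕ) < e 4 <;> simp [K, hi]
  obtain ⟨P, hP⟩ := upper (fun c d => W 4 c d) (W 5) (W 6) (e 5) (e 6)
    (Fin.snoc (fun i => K i ^ 2) 0)
  have h3 : U7 e W 0 = Fam (Fin.snoc (fun i => K i ^ 2) 0 : Fin 4 → ℂ[X]) P := by
    rw [← hP]
    unfold U7
    rw [h2]
  rw [h3]
  refine h1 K P fun i => ?_
  simp only [K]
  split_ifs
  · exact natDegree_U4 e W i
  · simp

theorem lowB : ∃ Q : MvPolynomial (Fin 65) ℂ, Q ≠ 0 ∧ ∀ e : Fin 8 → ℕ, e 4 ≤ 4 → e 3 ≤ 4 →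
    ∀ W : Fin 7 → ℕ → ℕ → ℂ,
      MvPolynomial.eval (fun s : Fin 65 => (U7 e W 0).coeff s) Q = 0 := by
  obtain ⟨Q, hQ, h1⟩ := caseB
  refine ⟨Q, hQ, fun e he he3 W => ?_⟩
  let w : Fin 4 → Fin 4 → ℂ := fun i j => if (i : ℕ) < e 4 ∧ (j : ℕ) < e 3 then W 3 i j else 0
  let G : Fin 4 → ℂ[X] := fun j => U3 e W j
  have h2 : st (e 4) (W 4) (U4 e W) = fun c => ∑ d : Fin 4, C (W 4 c d) * KB w G d ^ 2 := by
    funext c
    rw [st, sum_pad (e 4) 4 he]
    refine Finset.sum_congr rfl fun d _ => ?_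
    by_cases hd : (d : ℕ) < e 4
    · rw [if_pos hd, U4_eq, st, sum_pad (e 3) 4 he3]
      unfold KB
      congr 2
      refine Finset.sum_congr rfl fun j _ => ?_
      simp only [w, G, hd, true_and]
      split_ifs <;> simp
    · rw [if_neg hd]
      have h3 : KB w G d = 0 := by
        unfold KB
        refine Finset.sum_eq_zero fun j _ => ?_
        simp only [w, hd, false_and, if_false, C_0, zero_mul]
      rw [h3]
      simp
  obtain ⟨P, hP⟩ := upper (fun c d => W 4 c d) (W 5) (W 6) (e 5) (e 6) (fun d => KB w G d ^ 2)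
  have h3 : U7 e W 0 = FamB w G P := by
    unfold FamB
    rw [← hP]
    unfold U7
    rw [h2]
  rw [h3]
  exact h1 w G P fun j => natDegree_U3 e W j

theorem lowC : ∃ Q : MvPolynomial (Fin 65) ℂ, Q ≠ 0 ∧ ∀ e : Fin 8 → ℕ, e 4 ≤ 4 → e 5 ≤ 4 →
    ∀ W : Fin 7 → ℕ → ℕ → ℂ,
      MvPolynomial.eval (fun s : Fin 65 => (U7 e W 0).coeff s) Q = 0 := by
  obtain ⟨Q, hQ, h1⟩ := caseC
  refine ⟨Q, hQ, fun e he he5 W => ?_⟩
  let w : Fin 4 → Fin 4 → ℂ := fun c d => if (d : ℕ) < e 4 then W 4 c d else 0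
  let v : ℕ → Fin 4 → ℂ := fun b c => if (c : ℕ) < e 5 then W 5 b c else 0
  let S : Sym2 (Fin 4) → ℂ := Sym2.lift ⟨fun c c' => ∑ b ∈ Finset.range (e 6),
    W 6 0 b * (v b c * v b c'), fun c c' => by
      refine Finset.sum_congr rfl fun b _ => ?_
      ring⟩
  have h2 : ∀ c : Fin 4, st (e 4) (W 4) (U4 e W) c = ∑ d, C (w c d) * (U4 e W d) ^ 2 := by
    intro c
    rw [st, sum_pad (e 4) 4 he]
    refine Finset.sum_congr rfl fun d _ => ?_
    simp only [w]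
    split_ifs <;> simp
  have h3 : ∀ b, st (e 5) (W 5) (st (e 4) (W 4) (U4 e W)) b =
      ∑ c, C (v b c) * (∑ d, C (w c d) * (U4 e W d) ^ 2) ^ 2 := by
    intro b
    rw [st, sum_pad (e 5) 4 he5]
    refine Finset.sum_congr rfl fun c _ => ?_
    rw [h2]
    simp only [v]
    split_ifs <;> simp
  have h4 : U7 e W 0 = FamC (fun d => U4 e W d) w S := by
    unfold U7
    rw [st]
    simp only [h3]
    unfold FamC
    simp only [S, Sym2.lift_mk, map_sum, C_mul, Finset.sum_mul]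
    rw [Finset.sum_congr rfl fun b _ => by
      rw [pow_two, Finset.sum_mul_sum, Finset.mul_sum]]
    rw [Finset.sum_comm]
    refine Finset.sum_congr rfl fun c _ => ?_
    simp only [Finset.mul_sum]
    rw [Finset.sum_comm]
    refine Finset.sum_congr rfl fun c' _ => ?_
    refine Finset.sum_congr rfl fun b _ => ?_
    ring
  rw [h4]
  exact h1 _ w S fun i => natDegree_U4 e W i

end Pool.Agent.Y238.UW
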