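import Mathlib
import Pool.Agent.Y238.UW.Low

/-!
# From the network in the frozen statement to polynomials in one variable
-/

set_option autoImplicit false

namespace Pool.Agent.Y238.UW

open MvPolynomial

/-- The outputs of the network. -/
noncomputable def out (e : Fin 8 → ℕ) (W : Fin 7 → ℕ → ℕ → ℂ) : ℕ → MvPolynomial ℕ ℂ :=
  (List.finRange 7).foldl
    (fun (h : ℕ → MvPolynomial ℕ ℂ) (k : Fin 7) (a : ℕ) =>
      ∑ b ∈ Finset.range (e k.castSucc),
        MvPolynomial.C (W k a b) * h b ^ (if (k : ℕ) = 0 then 1 else 2))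
    (fun b : ℕ => (MvPolynomial.X b : MvPolynomial ℕ ℂ))

/-- The outputs are dense in the ambient space. -/
def Fill (e : Fin 8 → ℕ) : Prop :=
  ∀ P : MvPolynomial (ℕ × (ℕ →₀ ℕ)) ℂ,
    (∀ W : Fin 7 → ℕ → ℕ → ℂ,
      MvPolynomial.eval (fun p : ℕ × (ℕ →₀ ℕ) => MvPolynomial.coeff p.2 (out e W p.1)) P = 0) →
    ∀ c : ℕ × (ℕ →₀ ℕ) → ℂ,
      (∀ p : ℕ × (ℕ →₀ ℕ), c p ≠ 0 →
        p.1 < e (Fin.last 7) ∧ (∑ b ∈ p.2.support, p.2 b) = 2 ^ (7 - 1) ∧
          ∀ b ∈ p.2.support, b < e 0) →
      MvPolynomial.eval c P = 0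

/-- One layer. -/
noncomputable def ms (n : ℕ) (w : ℕ → ℕ → ℂ) (h : ℕ → MvPolynomial ℕ ℂ) (a : ℕ) :
    MvPolynomial ℕ ℂ :=
  ∑ b ∈ Finset.range n, C (w a b) * h b ^ 2

/-- The first layer. -/
noncomputable def ml (w : ℕ → ℕ → ℂ) (a : ℕ) : MvPolynomial ℕ ℂ :=
  C (w a 0) * X 0 + C (w a 1) * X 1

theorem out_eq (e : Fin 8 → ℕ) (he : e 0 = 2) (W : Fin 7 → ℕ → ℕ → ℂ) :
    out e W = ms (e 6) (W 6) (ms (e 5) (W 5) (ms (e 4) (W 4) (ms (e 3) (W 3)
      (ms (e 2) (W 2) (ms (e 1) (W 1) (ml (W 0))))))) := by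
  let F : (ℕ → MvPolynomial ℕ ℂ) → Fin 7 → ℕ → MvPolynomial ℕ ℂ :=
    fun (h : ℕ → MvPolynomial ℕ ℂ) (k : Fin 7) (a : ℕ) =>
      ∑ b ∈ Finset.range (e k.castSucc),
        MvPolynomial.C (W k a b) * h b ^ (if (k : ℕ) = 0 then 1 else 2)
  have hl : List.finRange 7 = [0, 1, 2, 3, 4, 5, 6] := rfl
  have h1 : out e W = F (F (F (F (F (F (F (fun b => X b) 0) 1) 2) 3) 4) 5) 6 := by
    unfold out
    rw [hl]
    rfl
  have h0 : F (fun b => X b) 0 = ml (W 0) := by
    funext a
    simp only [F]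
    have : (0 : Fin 7).castSucc = 0 := rfl
    rw [this, he]
    simp [Finset.sum_range_succ, ml]
  have hF : ∀ (h : ℕ → MvPolynomial ℕ ℂ) (k : Fin 7), (k : ℕ) ≠ 0 →
      F h k = ms (e k.castSucc) (W k) h := by
    intro h k hk
    funext a
    simp only [F, ms, if_neg hk]
  rw [h1, h0, hF _ 1 (by decide), hF _ 2 (by decide), hF _ 3 (by decide), hF _ 4 (by decide),
    hF _ 5 (by decide), hF _ 6 (by decide)]
  rfl

/-- Dehomogenisation. -/
noncomputable def dh : MvPolynomial ℕ ℂ →ₐ[ℂ] Polynomial ℂ :=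
  aeval fun n => if n = 0 then Polynomial.X else if n = 1 then 1 else 0

theorem dh_ml (w : ℕ → ℕ → ℂ) (a : ℕ) : dh (ml w a) = ls w a := by
  unfold ml dh ls
  simp

theorem dh_ms (n : ℕ) (w : ℕ → ℕ → ℂ) (h : ℕ → MvPolynomial ℕ ℂ) (g : ℕ → Polynomial ℂ)
    (hg : ∀ a, dh (h a) = g a) (a : ℕ) : dh (ms n w h a) = st n w g a := by
  unfold ms st
  rw [map_sum]
  refine Finset.sum_congr rfl fun b _ => ?_
  rw [map_mul, map_pow, hg]
  have h1 : dh (C (w a b)) = Polynomial.C (w a b) := by
    unfold dh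
    simp
  rw [h1]

theorem dh_out (e : Fin 8 → ℕ) (he : e 0 = 2) (W : Fin 7 → ℕ → ℕ → ℂ) (a : ℕ) :
    dh (out e W a) = U7 e W a := by
  rw [out_eq e he W]
  unfold U7 U4
  exact dh_ms _ _ _ _ (dh_ms _ _ _ _ (dh_ms _ _ _ _ (dh_ms _ _ _ _ (dh_ms _ _ _ _
    (dh_ms _ _ _ _ (dh_ml _)))))) a

/-- The forms of degree `n` in the first two variables. -/
def Form (n : ℕ) (f : MvPolynomial ℕ ℂ) : Prop :=
  f.IsHomogeneous n ∧ f ∈ MvPolynomial.supported ℂ ({0, 1} : Set ℕ)

theorem form_ml (w : ℕ → ℕ → ℂ) (a : ℕ) : Form 1 (ml w a) := by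
  have h : ∀ (z : ℂ) (i : ℕ), (C z * X i : MvPolynomial ℕ ℂ).IsHomogeneous 1 := fun z i => by
    have := (isHomogeneous_C ℕ z).mul (isHomogeneous_X ℂ i)
    rwa [zero_add] at this
  refine ⟨(h _ _).add (h _ _), ?_⟩
  refine Subalgebra.add_mem _ (Subalgebra.mul_mem _ (Subalgebra.algebraMap_mem _ _) ?_)
    (Subalgebra.mul_mem _ (Subalgebra.algebraMap_mem _ _) ?_)
  · exact (X_mem_supported).2 (by simp)
  · exact (X_mem_supported).2 (by simp)

theorem form_ms (n d : ℕ) (w : ℕ → ℕ → ℂ) (h : ℕ → MvPolynomial ℕ ℂ) (hh : ∀ a, Form d (h a))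
    (a : ℕ) : Form (d * 2) (ms n w h a) := by
  refine ⟨?_, ?_⟩
  · refine IsHomogeneous.sum _ _ _ fun b _ => ?_
    have := (isHomogeneous_C ℕ (w a b)).mul ((hh b).1.pow 2)
    rwa [zero_add] at this
  · refine Subalgebra.sum_mem _ fun b _ => ?_
    exact Subalgebra.mul_mem _ (Subalgebra.algebraMap_mem _ _) (Subalgebra.pow_mem _ (hh b).2 2)

theorem form_out (e : Fin 8 → ℕ) (he : e 0 = 2) (W : Fin 7 → ℕ → ℕ → ℂ) (a : ℕ) :
    Form 64 (out e W a) := by
  rw [out_eq e he W]
  exact form_ms _ 32 _ _ (form_ms _ 16 _ _ (form_ms _ 8 _ _ (form_ms _ 4 _ _ (form_ms _ 2 _ _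
    (form_ms _ 1 _ _ (form_ml _)))))) a

/-- The exponent of `x ^ s y ^ (64 - s)`. -/
noncomputable def mx (s : ℕ) : ℕ →₀ ℕ := Finsupp.single 0 s + Finsupp.single 1 (64 - s)

theorem mx_zero (s : ℕ) : mx s 0 = s := by simp [mx]

theorem mx_one (s : ℕ) : mx s 1 = 64 - s := by simp [mx]

theorem mx_other (s b : ℕ) (h0 : b ≠ 0) (h1 : b ≠ 1) : mx s b = 0 := by
  simp [mx, Ne.symm h0, Ne.symm h1]

theorem eq_mx {m : ℕ →₀ ℕ} (h : ∀ b ∈ m.support, b < 2) (hd : ∑ b ∈ m.support, m b = 64) :
    m 0 ≤ 64 ∧ m = mx (m 0) := by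
  have h1 : m 0 + m 1 = 64 := by
    rw [← hd]
    have h2 : m.support ⊆ {0, 1} := by
      intro b hb
      have := h b hb
      simp only [Finset.mem_insert, Finset.mem_singleton]
      omega
    rw [Finset.sum_subset h2 (fun b _ hb => by simpa using hb)]
    simp
  refine ⟨by omega, ?_⟩
  ext b
  by_cases hb0 : b = 0
  · subst hb0
    rw [mx_zero]
  by_cases hb1 : b = 1
  · subst hb1
    rw [mx_one]
    omega
  rw [mx_other _ _ hb0 hb1]
  by_contra hne
  have := h b (Finsupp.mem_support_iff.2 hne)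
  omega

theorem support_form {f : MvPolynomial ℕ ℂ} (hf : Form 64 f) {m : ℕ →₀ ℕ} (hm : m ∈ f.support) :
    m 0 ≤ 64 ∧ m = mx (m 0) := by
  refine eq_mx ?_ ?_
  · intro b hb
    have h1 : b ∈ f.vars := (mem_vars_iff_mem_support b).2 ⟨m, hm, hb⟩
    have h2 := (mem_supported.1 hf.2) h1
    simp only [Set.mem_insert_iff, Set.mem_singleton_iff] at h2
    omega
  · have h1 := hf.1 (mem_support_iff.1 hm)
    refine Eq.trans ?_ h1
    simp [Finsupp.weight_apply, Finsupp.sum]

theorem coeff_dh {f : MvPolynomial ℕ ℂ} (hf : Form 64 f) (s : ℕ) :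
    (dh f).coeff s = coeff (mx s) f := by
  unfold dh
  rw [aeval_def, eval₂_eq, Polynomial.finsetSum_coeff]
  have h1 : ∀ m ∈ f.support, ((algebraMap ℂ (Polynomial ℂ)) (coeff m f) *
      ∏ i ∈ m.support, (if i = 0 then Polynomial.X else if i = 1 then 1 else 0 :
        Polynomial ℂ) ^ m i).coeff s = if m = mx s then coeff m f else 0 := by
    intro m hm
    obtain ⟨h2, h3⟩ := support_form hf hm
    have h4 : ∏ i ∈ m.support, (if i = 0 then Polynomial.X else if i = 1 then 1 else 0 :
        Polynomial ℂ) ^ m i = Polynomial.X ^ m 0 := by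
      rw [← Finset.prod_subset (s₁ := m.support ∩ {0}) Finset.inter_subset_left]
      · by_cases h0 : m 0 = 0
        · have : m.support ∩ {0} = ∅ := by
            ext b
            simp only [Finset.mem_inter, Finset.mem_singleton, Finset.notMem_empty, iff_false]
            rintro ⟨hb, rfl⟩
            exact (Finsupp.mem_support_iff.1 hb) h0
          rw [this, h0]
          simp
        · have : m.support ∩ {0} = {0} := by
            ext b
            simp only [Finset.mem_inter, Finset.mem_singleton]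
            constructor
            · exact fun h => h.2
            · rintro rfl
              exact ⟨Finsupp.mem_support_iff.2 h0, rfl⟩
          rw [this]
          simp
      · intro b hb hb'
        have hb0 : b ≠ 0 := by
          rintro rfl
          exact hb' (Finset.mem_inter.2 ⟨hb, Finset.mem_singleton_self _⟩)
        have hb1 : b = 1 := by
          by_contra hb1
          rw [Finsupp.mem_support_iff, h3, mx_other _ _ hb0 hb1] at hb
          exact hb rfl
        subst hb1
        simp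
    rw [h4]
    change (Polynomial.C (coeff m f) * Polynomial.X ^ m 0).coeff s = _
    rw [Polynomial.coeff_C_mul_X_pow]
    by_cases h5 : s = m 0
    · rw [if_pos h5, if_pos (by rw [h5]; exact h3)]
    · rw [if_neg h5, if_neg]
      intro h6
      apply h5
      rw [h6, mx_zero]
  rw [Finset.sum_congr rfl h1, Finset.sum_ite_eq']
  split_ifs with h2
  · rfl
  · exact (notMem_support_iff.1 h2).symm

/-- The coordinates of the ambient space. -/
noncomputable def io (s : Fin 65) : ℕ × (ℕ →₀ ℕ) := (0, mx s)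

theorem io_inj : Function.Injective io := by
  intro s t h
  have h1 := congrArg (fun p => p.2 0) h
  simp only [io, mx_zero] at h1
  exact Fin.ext h1

theorem exists_ext {A : Type} [Zero A] (v : Fin 65 → A) :
    ∃ c : ℕ × (ℕ →₀ ℕ) → A, (∀ s, c (io s) = v s) ∧ ∀ p, (¬ ∃ s, io s = p) → c p = 0 := by
  classical
  refine ⟨Function.extend io v 0, fun s => io_inj.extend_apply _ _ _, fun p hp => ?_⟩
  rw [Function.extend_apply' _ _ _ hp]
  rfl

/-- Small widths do not fill. -/
theorem not_fill (e : Fin 8 → ℕ) (he0 : e 0 = 2) (he7 : e 7 = 1) (Q : MvPolynomial (Fin 65) ℂ)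
    (hQ : Q ≠ 0) (h : ∀ W : Fin 7 → ℕ → ℕ → ℂ,
      eval (fun s : Fin 65 => (U7 e W 0).coeff s) Q = 0) : ¬ Fill e := by
  intro hF
  apply hQ
  apply MvPolynomial.funext
  intro v
  rw [map_zero]
  obtain ⟨c, hc, hc0⟩ := exists_ext v
  have h1 := hF (rename io Q) (fun W => ?_) c ?_
  · rw [eval_rename] at h1
    have h2 : c ∘ io = v := by
      funext s
      exact hc s
    rw [h2] at h1
    exact h1
  · rw [eval_rename]
    have h2 : (fun p : ℕ × (ℕ →₀ ℕ) => coeff p.2 (out e W p.1)) ∘ io =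
        fun s : Fin 65 => (U7 e W 0).coeff s := by
      funext s
      have h3 := coeff_dh (form_out e he0 W 0) s
      rw [dh_out e he0 W] at h3
      exact h3.symm
    rw [h2]
    exact h W
  · intro p hp
    have hex : ∃ s, io s = p := by
      by_contra hno
      exact hp (hc0 p hno)
    obtain ⟨s, rfl⟩ := hex
    have hsup : (mx s).support ⊆ {0, 1} := by
      intro b hb
      rw [Finsupp.mem_support_iff] at hb
      by_contra hcon
      simp only [Finset.mem_insert, Finset.mem_singleton, not_or] at hcon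
      exact hb (mx_other _ _ hcon.1 hcon.2)
    refine ⟨?_, ?_, ?_⟩
    · change 0 < e (Fin.last 7)
      have : (Fin.last 7 : Fin 8) = 7 := rfl
      rw [this, he7]
      exact Nat.one_pos
    · change ∑ b ∈ (mx s).support, mx s b = 64
      rw [Finset.sum_subset hsup (fun b _ hb => by simpa using hb)]
      rw [Finset.sum_pair (by decide), mx_zero, mx_one]
      omega
    · intro b hb
      have := hsup hb
      rw [he0]
      simp only [Finset.mem_insert, Finset.mem_singleton] at this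
      omega

/-- Density of the one-variable outputs implies filling. -/
theorem fill_of_dense (e : Fin 8 → ℕ) (he0 : e 0 = 2) (he7 : e 7 = 1)
    (h : ∀ Q : MvPolynomial (Fin 65) ℂ, (∀ W : Fin 7 → ℕ → ℕ → ℂ,
      eval (fun s : Fin 65 => (U7 e W 0).coeff s) Q = 0) → Q = 0) : Fill e := by
  classical
  intro P hP c hc
  obtain ⟨g, hg, hg0⟩ := exists_ext (fun s : Fin 65 => (X s : MvPolynomial (Fin 65) ℂ))
  have key : ∀ (c : ℕ × (ℕ →₀ ℕ) → ℂ), (∀ p, (¬ ∃ s, io s = p) → c p = 0) →
      eval c P = eval (fun s => c (io s)) (bind₁ g P) := by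
    intro c hc
    have h1 : eval (fun s => c (io s)) (bind₁ g P) = eval c P := by
      rw [eval, eval₂Hom_bind₁]
      congr 1
      congr 1
      funext p
      by_cases hp : ∃ s, io s = p
      · obtain ⟨s, rfl⟩ := hp
        rw [hg]
        simp
      · rw [hg0 p hp, hc p hp, map_zero]
    exact h1.symm
  have hz : bind₁ g P = 0 := by
    refine h _ fun W => ?_
    let W' : Fin 7 → ℕ → ℕ → ℂ := fun k a b => if k = 6 ∧ a ≠ 0 then 0 else W k a b
    have h1 : ∀ a, U7 e W' a = if a = 0 then U7 e W 0 else 0 := by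
      intro a
      have h2 : st (e 5) (W' 5) (st (e 4) (W' 4) (U4 e W')) =
          st (e 5) (W 5) (st (e 4) (W 4) (U4 e W)) := by
        have h3 : ∀ k : Fin 7, k ≠ 6 → W' k = W k := by
          intro k hk
          funext a b
          simp [W', hk]
        unfold U4
        rw [h3 0 (by decide), h3 1 (by decide), h3 2 (by decide), h3 3 (by decide),
          h3 4 (by decide), h3 5 (by decide)]
      unfold U7
      rw [h2]
      by_cases ha : a = 0
      · subst ha
        rw [if_pos rfl, st, st]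
        refine Finset.sum_congr rfl fun b _ => ?_
        simp [W']
      · rw [if_neg ha, st]
        refine Finset.sum_eq_zero fun b _ => ?_
        simp [W', ha]
    have h2 : ∀ a, a ≠ 0 → out e W' a = 0 := by
      intro a ha
      have h3 := dh_out e he0 W' a
      rw [h1, if_neg ha] at h3
      ext m
      by_cases hm : m ∈ (out e W' a).support
      · obtain ⟨h4, h5⟩ := support_form (form_out e he0 W' a) hm
        have h6 := coeff_dh (form_out e he0 W' a) (m 0)
        rw [← h5, h3] at h6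
        rw [← h6]
        simp
      · rw [notMem_support_iff.1 hm, coeff_zero]
    have h3 := hP W'
    rw [key] at h3
    · have h4 : (fun s : Fin 65 => coeff (io s).2 (out e W' (io s).1)) =
          fun s : Fin 65 => (U7 e W 0).coeff s := by
        funext s
        have h5 := dh_out e he0 W' 0
        rw [h1, if_pos rfl] at h5
        have h6 := coeff_dh (form_out e he0 W' 0) s
        rw [h5] at h6
        exact h6.symm
      rw [h4] at h3
      exact h3
    · rintro ⟨a, m⟩ hno
      change coeff m (out e W' a) = 0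
      by_cases ha : a = 0
      · subst ha
        by_contra hne
        obtain ⟨h4, h5⟩ := support_form (form_out e he0 W' 0) (mem_support_iff.2 hne)
        apply hno
        refine ⟨⟨m 0, by omega⟩, ?_⟩
        simp only [io]
        rw [← h5]
      · rw [h2 a ha, coeff_zero]
  rw [key c ?_, hz, map_zero]
  rintro ⟨a, m⟩ hno
  by_contra hne
  obtain ⟨h1, h2, h3⟩ := hc _ hne
  have : (Fin.last 7 : Fin 8) = 7 := rfl
  rw [this, he7] at h1
  rw [he0] at h3
  have ha : a = 0 := by
    simp only at h1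
    omega
  subst ha
  obtain ⟨h4, h5⟩ := eq_mx h3 h2
  have h4' : m 0 ≤ 64 := h4
  have h5' : m = mx (m 0) := h5
  apply hno
  refine ⟨⟨m 0, by omega⟩, ?_⟩
  simp only [io]
  rw [← h5']

end Pool.Agent.Y238.UW
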